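import Pool.Agent.Helper1.SO.VSpan
import Pool.Agent.Helper32.SO.MemCell

set_option autoImplicit false

/-! SO-13: every point of a cell lies in a cell of full dimension. -/

namespace Pool.Agent.Helper28.SO

theorem mem_argm13 {n d : ℕ} (w : Fin n → Fin d → ℝ) (y : Fin d → ℝ) (i : Fin n) (k : Fin d) :
    k ∈ argm w y i ↔ ∀ k', w i k - y k ≤ w i k' - y k' := by
  classical
  simp [argm]

theorem argm_nonempty13 {n d : ℕ} (hd : 1 ≤ d) (w : Fin n → Fin d → ℝ) (y : Fin d → ℝ)
    (i : Fin n) : (argm w y i).Nonempty := by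
  have : Nonempty (Fin d) := ⟨⟨0, hd⟩⟩
  obtain ⟨k, hk⟩ := Finite.exists_min (fun k => w i k - y k)
  exact ⟨k, (mem_argm13 w y i k).mpr hk⟩

/-- moving `y` in a direction which is constant on all the argmins makes the argmins grow -/
theorem grow13 {n d : ℕ} (hd : 1 ≤ d) (w : Fin n → Fin d → ℝ) (y : Fin d → ℝ) (u : Fin d → ℝ)
    (hu : ∀ i, ∀ k ∈ argm w y i, ∀ k' ∈ argm w y i, u k = u k')
    (hex : ∃ i, ∃ c, ∃ c' ∈ argm w y i, u c' < u c) :
    ∃ y' : Fin d → ℝ, (∀ i, argm w y i ⊆ argm w y' i) ∧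
      ∑ i, (argm w y i).card < ∑ i, (argm w y' i).card := by
  classical
  choose c0 hc0 using fun i => argm_nonempty13 hd w y i
  let T : Finset (Fin n × Fin d) := Finset.univ.filter (fun p => u (c0 p.1) < u p.2)
  have hT : T.Nonempty := by
    obtain ⟨i, c, c', hc', hlt⟩ := hex
    refine ⟨(i, c), ?_⟩
    simp only [T, Finset.mem_filter, Finset.mem_univ, true_and]
    rw [hu i (c0 i) (hc0 i) c' hc']
    exact hlt
  let r : Fin n × Fin d → ℝ := fun p =>
    ((w p.1 p.2 - y p.2) - (w p.1 (c0 p.1) - y (c0 p.1))) / (u p.2 - u (c0 p.1))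
  obtain ⟨q, hqT, hq⟩ := Finset.exists_min_image T r hT
  have hq1 : u (c0 q.1) < u q.2 := by
    have := hqT
    simp only [T, Finset.mem_filter, Finset.mem_univ, true_and] at this
    exact this
  have hslack : ∀ i c, 0 ≤ (w i c - y c) - (w i (c0 i) - y (c0 i)) := by
    intro i c
    have := (mem_argm13 w y i (c0 i)).mp (hc0 i) c
    linarith
  have ht0 : 0 ≤ r q := div_nonneg (hslack _ _) (by linarith)
  set t : ℝ := r q with ht
  let y' : Fin d → ℝ := fun c => y c + t * u c
  have hkey : ∀ i c, 0 ≤ (w i c - y' c) - (w i (c0 i) - y' (c0 i)) := by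
    intro i c
    have e : (w i c - y' c) - (w i (c0 i) - y' (c0 i)) =
        ((w i c - y c) - (w i (c0 i) - y (c0 i))) - t * (u c - u (c0 i)) := by
      simp only [y']
      ring
    rw [e]
    by_cases hc : u (c0 i) < u c
    · have hmem : (i, c) ∈ T := by
        simp only [T, Finset.mem_filter, Finset.mem_univ, true_and]
        exact hc
      have h1 : t ≤ r (i, c) := hq (i, c) hmem
      have h2 : 0 < u c - u (c0 i) := by linarith
      have h3 : t * (u c - u (c0 i)) ≤ (w i c - y c) - (w i (c0 i) - y (c0 i)) := by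
        have := mul_le_mul_of_nonneg_right h1 h2.le
        simp only [r] at this
        rwa [div_mul_cancel₀ _ h2.ne'] at this
      linarith
    · push Not at hc
      have h1 := hslack i c
      have h2 : t * (u c - u (c0 i)) ≤ 0 := mul_nonpos_of_nonneg_of_nonpos ht0 (by linarith)
      linarith
  have hmin : ∀ i c, (w i c - y' c) = (w i (c0 i) - y' (c0 i)) → c ∈ argm w y' i := by
    intro i c hc
    rw [mem_argm13]
    intro k'
    have := hkey i k'
    linarith
  have hsub : ∀ i, argm w y i ⊆ argm w y' i := by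
    intro i c hc
    apply hmin
    have h1 := (mem_argm13 w y i c).mp hc (c0 i)
    have h2 := hslack i c
    have h3 := hu i c hc (c0 i) (hc0 i)
    simp only [y']
    rw [h3]
    linarith
  refine ⟨y', hsub, ?_⟩
  apply Finset.sum_lt_sum (fun i _ => Finset.card_le_card (hsub i))
  refine ⟨q.1, Finset.mem_univ _, Finset.card_lt_card ?_⟩
  refine ⟨hsub q.1, fun hcon => ?_⟩
  have hmem : q.2 ∈ argm w y' q.1 := by
    apply hmin
    have h2 : u q.2 - u (c0 q.1) ≠ 0 := by
      have : 0 < u q.2 - u (c0 q.1) := by linarith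
      exact this.ne'
    have h3 : t * (u q.2 - u (c0 q.1)) = (w q.1 q.2 - y q.2) - (w q.1 (c0 q.1) - y (c0 q.1)) := by
      rw [ht]
      simp only [r]
      rw [div_mul_cancel₀ _ h2]
    simp only [y']
    linarith
  have h4 := hu q.1 q.2 (hcon hmem) (c0 q.1) (hc0 q.1)
  linarith

theorem sum_ker13 {d : ℕ} (hd : 1 ≤ d) :
    Module.finrank ℝ (LinearMap.ker (∑ c : Fin d, (LinearMap.proj c : (Fin d → ℝ) →ₗ[ℝ] ℝ))) =
      d - 1 := by
  have h := LinearMap.finrank_range_add_finrank_ker
    (∑ c : Fin d, (LinearMap.proj c : (Fin d → ℝ) →ₗ[ℝ] ℝ))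
  have hsurj : LinearMap.range (∑ c : Fin d, (LinearMap.proj c : (Fin d → ℝ) →ₗ[ℝ] ℝ)) = ⊤ := by
    rw [LinearMap.range_eq_top]
    intro a
    refine ⟨Pi.single ⟨0, hd⟩ a, ?_⟩
    simp
  rw [hsurj, finrank_top, Module.finrank_self, Module.finrank_fin_fun] at h
  omega

/-- SO-13. -/
theorem exists_full_dual {n d : ℕ} (hn : 1 ≤ n) (hd : 1 ≤ d) (w : Fin n → Fin d → ℝ)
    (x : Fin d → ℝ) (hx : ∃ y : Fin d → ℝ, x ∈ cell (argm w y)) :
    ∃ y : Fin d → ℝ, x ∈ cell (argm w y) ∧
      Module.finrank ℝ (vectorSpan ℝ (cell (argm w y))) = d - 1 := by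
  classical
  obtain ⟨y0, hy0⟩ := hx
  obtain ⟨lam, h1, h2, h3, h4⟩ := (mem_cell_iff _ _).mp hy0
  let P : ℕ → Prop := fun m => ∃ y : Fin d → ℝ, (∀ i c, c ∉ argm w y i → lam i c = 0) ∧
    ∑ i, (argm w y i).card = m
  have hbound : ∀ m, P m → m ≤ n * d := by
    rintro m ⟨y, -, rfl⟩
    calc ∑ i, (argm w y i).card ≤ ∑ _i : Fin n, d := by
          apply Finset.sum_le_sum
          intro i _
          calc (argm w y i).card ≤ (Finset.univ : Finset (Fin d)).card :=
                Finset.card_le_card (Finset.subset_univ _)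
            _ = d := by simp
      _ = n * d := by simp
  have hP0 : P (∑ i, (argm w y0 i).card) := ⟨y0, h3, rfl⟩
  have hPmax : P (Nat.findGreatest P (n * d)) :=
    Nat.findGreatest_spec (hbound _ hP0) hP0
  obtain ⟨y, hy1, hy2⟩ := hPmax
  have hmaxl : ∀ y' : Fin d → ℝ, (∀ i c, c ∉ argm w y' i → lam i c = 0) →
      ∑ i, (argm w y' i).card ≤ ∑ i, (argm w y i).card := by
    intro y' hy'
    rw [hy2]
    exact Nat.le_findGreatest (hbound _ ⟨y', hy', rfl⟩) ⟨y', hy', rfl⟩
  refine ⟨y, (mem_cell_iff _ _).mpr ⟨lam, h1, h2, hy1, h4⟩, ?_⟩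
  have hno : ∀ u : Fin d → ℝ, (∀ i, ∀ k ∈ argm w y i, ∀ k' ∈ argm w y i, u k = u k') →
      ¬ ∃ i, ∃ c, ∃ c' ∈ argm w y i, u c' < u c := by
    intro u hu hex
    obtain ⟨y', hy'1, hy'2⟩ := grow13 hd w y u hu hex
    have := hmaxl y' (fun i c hc => hy1 i c (fun h => hc (hy'1 i h)))
    omega
  have hconst : ∀ u : Fin d → ℝ, (∀ i, ∀ k ∈ argm w y i, ∀ k' ∈ argm w y i, u k = u k') →
      ∀ c c', u c = u c' := by
    intro u hu
    obtain ⟨c0, hc0⟩ := argm_nonempty13 hd w y ⟨0, hn⟩
    have hall : ∀ c, u c = u c0 := by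
      intro c
      apply le_antisymm
      · by_contra hlt
        push Not at hlt
        exact hno u hu ⟨⟨0, hn⟩, c, c0, hc0, hlt⟩
      · by_contra hlt
        push Not at hlt
        refine hno (fun k => - u k) (fun i k hk k' hk' => ?_) ⟨⟨0, hn⟩, c, c0, hc0, ?_⟩
        · rw [hu i k hk k' hk']
        · simpa using hlt
    intro c c'
    rw [hall c, hall c']
  rw [vectorSpan_cell _ (fun i => argm_nonempty13 hd w y i), ← sum_ker13 hd]
  have hEq : Submodule.span ℝ
      {z : Fin d → ℝ | ∃ i, ∃ k ∈ argm w y i, ∃ k' ∈ argm w y i,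
        z = Pi.single k 1 - Pi.single k' 1} =
      LinearMap.ker (∑ c : Fin d, (LinearMap.proj c : (Fin d → ℝ) →ₗ[ℝ] ℝ)) := by
    apply le_antisymm
    · rw [Submodule.span_le]
      rintro z ⟨i, k, -, k', -, rfl⟩
      simp
    · intro z hz
      by_contra hzV
      obtain ⟨f, hf1, hf2⟩ := Submodule.exists_dual_map_eq_bot_of_notMem hzV inferInstance
      have hf0 : ∀ v ∈ Submodule.span ℝ
          {z : Fin d → ℝ | ∃ i, ∃ k ∈ argm w y i, ∃ k' ∈ argm w y i,
            z = Pi.single k 1 - Pi.single k' 1}, f v = 0 := by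
        intro v hv
        have : f v ∈ Submodule.map f (Submodule.span ℝ
          {z : Fin d → ℝ | ∃ i, ∃ k ∈ argm w y i, ∃ k' ∈ argm w y i,
            z = Pi.single k 1 - Pi.single k' 1}) := Submodule.mem_map_of_mem hv
        rw [hf2] at this
        simpa using this
      have hcst := hconst (fun c => f (Pi.single c 1)) (fun i k hk k' hk' => by
        have := hf0 (Pi.single k 1 - Pi.single k' 1)
          (Submodule.subset_span ⟨i, k, hk, k', hk', rfl⟩)
        rw [map_sub] at this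
        linarith)
      apply hf1
      have hsum : z = ∑ c, z c • (Pi.single c 1 : Fin d → ℝ) := by
        ext j
        simp [Finset.sum_apply, Pi.single_apply]
      rw [hsum, map_sum]
      have hz0 : ∑ c, z c = 0 := by
        have := hz
        rw [LinearMap.mem_ker] at this
        simpa using this
      calc ∑ c, f (z c • (Pi.single c 1 : Fin d → ℝ)) =
            ∑ c, z c * f (Pi.single (⟨0, hd⟩ : Fin d) 1) := by
              apply Finset.sum_congr rfl
              intro c _
              rw [map_smul, smul_eq_mul]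
              have := hcst c ⟨0, hd⟩
              rw [this]
        _ = 0 := by
              rw [← Finset.sum_mul, hz0, zero_mul]
  rw [hEq]

end Pool.Agent.Helper28.SO
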